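import Pool.Agent.Lib.MP_b5021c_nt.IfaceK2

/-!
# MP_b5021c_nt, row HAT: the completion `D + w_none D^*` is `Good`
-/

namespace Pool.Agent.MP_b5021c_nt.H36

open Polynomial Pool.Agent.B5 Pool.Agent.MP_b5021c_nt

/-- HAT. Completion (K3). -/
theorem hat (h1 : HpfS) (h2 : HirS) (h3 : HunS) (h4 : HspS) : HatS := by
  intro ι _ _ D θ hf ho hi hs hu
  have hdeg : ∀ S, (D S).natDegree ≤ degz D := fun S =>
    Finset.le_sup (f := fun S => (D S).natDegree) (Finset.mem_univ S)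
  have h0 : (D ∅).coeff 0 = 1 := ho.2.1
  have he : join D (rev (degz D) D) ∅ = D ∅ := by
    unfold join
    rw [if_neg (Finset.notMem_empty none)]
    congr 1
  refine ⟨h1 ι D (degz D) hf hdeg, ?_, h2 ι D h0 hs hi hu, h3 ι D (degz D) hdeg, h4 ι D h0 hs⟩
  rw [he]
  exact ho

end Pool.Agent.MP_b5021c_nt.H36
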